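import Pool.Agent.Y6.G.Stm
import Pool.Agent.Y287.EF.LAT

/-! Project EP, job EP-LAT: lattice sums (adapted from `Pool.Agent.Y287.EF.LAT`). -/

set_option autoImplicit false

namespace Pool.Agent.Y436.EP.LAT

open Pool.Agent.Y6.G
open Pool.Agent.Y6.F (rk code cd ln NM)
open Pool.Agent.Y6.M (Z3 nsq len Md br)

lemma ln_nonneg (i : Md) : 0 ≤ ln i := Real.sqrt_nonneg _

theorem al_posR (n : ℕ) : 0 < αM n := by
  unfold αM
  exact_mod_cast al_pos n

theorem kx_apply (n : ℕ) (j : Fin 3) : kx n j = if j.1 = n % 3 then (al n : ℤ) else 0 := rfl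

theorem nsq_kx (n : ℕ) : nsq (kx n) = (al n : ℤ) ^ 2 := by
  unfold nsq
  rw [Fin.sum_univ_three, kx_apply, kx_apply, kx_apply]
  have h : n % 3 = 0 ∨ n % 3 = 1 ∨ n % 3 = 2 := by omega
  rcases h with h | h | h <;> rw [h] <;> simp

theorem nsq_ky (n : ℕ) : nsq (kx n + kx (n + 1)) = (al n : ℤ) ^ 2 + (al (n + 1) : ℤ) ^ 2 := by
  unfold nsq
  rw [Fin.sum_univ_three]
  simp only [Pi.add_apply, kx_apply]
  have h : (n % 3 = 0 ∧ (n + 1) % 3 = 1) ∨ (n % 3 = 1 ∧ (n + 1) % 3 = 2) ∨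
    (n % 3 = 2 ∧ (n + 1) % 3 = 0) := by omega
  rcases h with ⟨h, h'⟩ | ⟨h, h'⟩ | ⟨h, h'⟩ <;> rw [h, h'] <;> simp [add_comm]

theorem len_kx (n : ℕ) : len (kx n) = αM n := by
  unfold len
  rw [nsq_kx]
  have : (((al n : ℤ) ^ 2 : ℤ) : ℝ) = αM n ^ 2 := by
    unfold αM
    push_cast
    rfl
  rw [this, Real.sqrt_sq (al_posR n).le]

theorem len_ky (n : ℕ) : len (kx n + kx (n + 1)) = ρM n := by
  unfold len ρM
  rw [nsq_ky]
  congr 1
  unfold αM
  push_cast
  rfl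

/-! ### Second part -/

lemma al_big (n : ℕ) : 8 * 2 ^ n ≤ al n := by
  induction n with
  | zero =>
    show 8 * 2 ^ 0 ≤ 10 ^ 100
    norm_num
  | succ n ih =>
    have h1 : al (n + 1) = al n ^ 61 := rfl
    have h2 : 2 ≤ al n := by
      have : 1 ≤ 2 ^ n := Nat.one_le_two_pow
      omega
    have h3 : al n ^ 2 ≤ al n ^ 61 := Nat.pow_le_pow_right (by omega) (by norm_num)
    rw [h1]
    refine le_trans ?_ h3
    calc 8 * 2 ^ (n + 1) = 8 * 2 ^ n * 2 := by ring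
      _ ≤ al n * al n := Nat.mul_le_mul ih h2
      _ = al n ^ 2 := by ring

lemma ln_Xm (n : ℕ) : ln (Xm n) = αM n := len_kx n

lemma ln_Ym (n : ℕ) : αM (n + 1) ≤ ln (Ym n) := by
  have h : ln (Ym n) = ρM n := len_ky n
  rw [h]
  unfold ρM
  refine Real.le_sqrt_of_sq_le ?_
  have := sq_nonneg (αM n)
  linarith

lemma ln_br (a : Md) : ln (br a) = ln a := by
  have h : nsq (br a).1.1 = nsq a.1.1 := by
    have e : ∀ j, (br a).1.1 j = -(a.1.1 j) := fun _ => rfl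
    rw [Pool.Agent.Y287.EF.LAT.nsq3, Pool.Agent.Y287.EF.LAT.nsq3, e, e, e]
    ring
  have h0 : ln a = √(nsq a.1.1 : ℝ) := rfl
  have h1 : ln (br a) = √(nsq (br a).1.1 : ℝ) := rfl
  rw [h0, h1, h]

lemma main_ln (hLV : S_LV) (a : Md) (ha : σM a = 0) : αM (lvM a) ≤ ln a := by
  obtain ⟨h1, -, h3, -⟩ := hLV
  obtain ⟨n, h | h | h | h⟩ := h3 a ha
  · rw [h, (h1 n).1, ln_Xm]
  · rw [h, (h1 n).2.1, ln_br, ln_Xm]
  · rw [h, (h1 n).2.2.1]
    exact ln_Ym n
  · rw [h, (h1 n).2.2.2, ln_br]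
    exact ln_Ym n

lemma main_card (hLV : S_LV) (s : Finset Md) (n : ℕ) :
    (s.filter (fun a => σM a = 0 ∧ lvM a = n)).card ≤ 4 := by
  classical
  obtain ⟨h1, -, h3, -⟩ := hLV
  have hsub : s.filter (fun a => σM a = 0 ∧ lvM a = n) ⊆
      {Xm n, br (Xm n), Ym (n - 1), br (Ym (n - 1))} := by
    intro a ha
    obtain ⟨ha1, ha2⟩ := (Finset.mem_filter.1 ha).2
    simp only [Finset.mem_insert, Finset.mem_singleton]
    obtain ⟨m, h | h | h | h⟩ := h3 a ha1
    · have := (h1 m).1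
      rw [← h, ha2] at this
      subst this
      exact Or.inl h
    · have := (h1 m).2.1
      rw [← h, ha2] at this
      subst this
      exact Or.inr (Or.inl h)
    · have := (h1 m).2.2.1
      rw [← h, ha2] at this
      subst this
      exact Or.inr (Or.inr (Or.inl h))
    · have := (h1 m).2.2.2
      rw [← h, ha2] at this
      subst this
      exact Or.inr (Or.inr (Or.inr h))
  exact (Finset.card_le_card hsub).trans Finset.card_le_four

lemma geo (n : ℕ) : ∑ m ∈ Finset.range n, ((2 : ℝ) ^ m)⁻¹ ≤ 2 := by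
  have h : ∀ n : ℕ, ∑ m ∈ Finset.range n, ((2 : ℝ) ^ m)⁻¹ = 2 - 2 * ((2 : ℝ) ^ n)⁻¹ := by
    intro n
    induction n with
    | zero => simp
    | succ n ih =>
      rw [Finset.sum_range_succ, ih, pow_succ]
      field_simp
      ring
  rw [h]
  have : (0 : ℝ) ≤ ((2 : ℝ) ^ n)⁻¹ := by positivity
  linarith

lemma sum2 (hLV : S_LV) (s : Finset Md) :
    ∑ a ∈ s, (open Classical in if σM a = 0 then (ln a)⁻¹ else 0) ≤ 1 := by
  classical
  have hmaps : ∀ a ∈ s, lvM a ∈ Finset.range (s.sup lvM + 1) := fun a ha =>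
    Finset.mem_range.2 (Nat.lt_succ_of_le (Finset.le_sup (f := lvM) ha))
  rw [← Finset.sum_fiberwise_of_maps_to hmaps]
  have h1 : ∀ n ∈ Finset.range (s.sup lvM + 1),
      ∑ a ∈ s.filter (fun a => lvM a = n), (if σM a = 0 then (ln a)⁻¹ else 0) ≤
        (1 / 2) * ((2 : ℝ) ^ n)⁻¹ := by
    intro n _
    rw [← Finset.sum_filter, Finset.filter_filter]
    have h3 : ∑ a ∈ s.filter (fun a => lvM a = n ∧ σM a = 0), (ln a)⁻¹ ≤
        (s.filter (fun a => lvM a = n ∧ σM a = 0)).card • (1 / 8 * ((2 : ℝ) ^ n)⁻¹) := by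
      refine Finset.sum_le_card_nsmul _ _ _ ?_
      intro a ha
      obtain ⟨ha1, ha2⟩ := (Finset.mem_filter.1 ha).2
      have h4 := main_ln hLV a ha2
      rw [ha1] at h4
      have h5 : (8 : ℝ) * 2 ^ n ≤ αM n := by
        unfold αM
        exact_mod_cast al_big n
      have e : 1 / 8 * ((2 : ℝ) ^ n)⁻¹ = (8 * 2 ^ n)⁻¹ := by
        rw [mul_inv, one_div]
      rw [e]
      exact inv_anti₀ (by positivity) (h5.trans h4)
    refine h3.trans ?_
    rw [nsmul_eq_mul]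
    have h6 : ((s.filter (fun a => lvM a = n ∧ σM a = 0)).card : ℝ) ≤ 4 := by
      have h7 := main_card hLV s n
      have h8 : s.filter (fun a => lvM a = n ∧ σM a = 0) =
          s.filter (fun a => σM a = 0 ∧ lvM a = n) :=
        Finset.filter_congr (fun a _ => and_comm)
      rw [h8]
      exact_mod_cast h7
    have h9 : (0 : ℝ) ≤ 1 / 8 * ((2 : ℝ) ^ n)⁻¹ := by positivity
    have h10 := mul_le_mul_of_nonneg_right h6 h9
    linarith
  refine (Finset.sum_le_sum h1).trans ?_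
  rw [← Finset.mul_sum]
  have h2 := geo (s.sup lvM + 1)
  linarith

theorem t_LAT : S_LAT := by
  refine ⟨Pool.Agent.Y287.EF.LAT.t_LAT.1, ?_⟩
  intro hLV
  have h0 : ∀ a : Md, 0 ≤ (if σM a = 0 then (ln a)⁻¹ else 0) := by
    intro a
    split_ifs
    · exact inv_nonneg.2 (ln_nonneg a)
    · exact le_rfl
  have hb : ∀ s : Finset Md, ∑ a ∈ s, (if σM a = 0 then (ln a)⁻¹ else 0) ≤ 1 := by
    intro s
    refine le_trans (le_of_eq ?_) (sum2 hLV s)
    refine Finset.sum_congr rfl fun a _ => ?_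
    split_ifs <;> rfl
  have hs : Summable (fun a : Md => if σM a = 0 then (ln a)⁻¹ else 0) :=
    summable_of_sum_le h0 hb
  exact ⟨hs, hs.tsum_le_of_sum_le hb⟩

end Pool.Agent.Y436.EP.LAT
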